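import Mathlib

namespace Pool.Agent.Results.MP_b3a441_al.Cover

universe u

/-- Steiner loop -/
structure SteinerLoop (X : Type u) where
  mul : X → X → X
  e : X
  one_mul : ∀ x, mul e x = x
  comm : ∀ x y, mul x y = mul y x
  cancel : ∀ x y, mul x (mul x y) = y

/-- the subloop generated by `x, y, z` -/
def gen {X : Type u} (L : SteinerLoop X) (x y z : X) : Set X :=
  ⋂₀ {K | L.e ∈ K ∧ x ∈ K ∧ y ∈ K ∧ z ∈ K ∧ ∀ a ∈ K, ∀ b ∈ K, L.mul a b ∈ K}

/-- associativity propagates -/
def Propagates {X : Type u} (L : SteinerLoop X) : Prop :=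
  ∀ x y z, L.mul x (L.mul y z) = L.mul (L.mul x y) z →
    ∀ a ∈ gen L x y z, ∀ b ∈ gen L x y z, ∀ c ∈ gen L x y z,
      L.mul a (L.mul b c) = L.mul (L.mul a b) c

variable {F : Type u} (L : SteinerLoop F)

theorem mul_one' (x : F) : L.mul x L.e = x := by rw [L.comm, L.one_mul]

theorem self (x : F) : L.mul x x = L.e := by
  have := L.cancel x L.e
  rwa [mul_one'] at this

theorem c2 (x y : F) : L.mul x (L.mul y x) = y := by rw [L.comm y, L.cancel]

theorem c3 (x y : F) : L.mul (L.mul x y) x = y := by rw [L.comm, L.cancel]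

theorem c4 (x y : F) : L.mul (L.mul x y) y = x := by rw [L.comm, c2]

open Classical in
noncomputable def f (x y : F) : Set F → ZMod 2 := fun S =>
  if x ≠ L.e ∧ y ≠ L.e ∧ L.mul x y ≠ L.e ∧ S = {x, y, L.mul x y} then 1 else 0

theorem f_comm (x y : F) : f L x y = f L y x := by
  classical
  funext S
  unfold f
  rw [L.comm y x, Set.insert_comm x y]
  exact if_congr (by tauto) rfl rfl

theorem f_cancel (x y : F) : f L x (L.mul x y) = f L x y := by
  classical
  funext S
  unfold f
  rw [L.cancel, Set.pair_comm y]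
  exact if_congr (by tauto) rfl rfl

theorem f_one (x : F) : f L L.e x = 0 := by funext S; simp [f]

theorem f_one' (x : F) : f L x L.e = 0 := by funext S; simp [f]

theorem f_self (x : F) : f L x x = 0 := by funext S; simp [f, self]

theorem two (a : Set F → ZMod 2) : a + a = 0 := by
  funext S; exact CharTwo.add_self_eq_zero _

noncomputable def ext : SteinerLoop (F × (Set F → ZMod 2)) where
  mul p q := (L.mul p.1 q.1, p.2 + q.2 + f L p.1 q.1)
  e := (L.e, 0)
  one_mul p := by simp [L.one_mul, f_one]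
  comm p q := by rw [L.comm, f_comm, add_comm p.2]
  cancel p q := by
    simp only [L.cancel, f_cancel]
    congr 1
    linear_combination two p.2 + two (f L p.1 q.1)

def Deg (a b c : F) : Prop :=
  a = L.e ∨ b = L.e ∨ c = L.e ∨ a = b ∨ b = c ∨ a = c ∨ c = L.mul a b

theorem deg_assoc (a b c : F) (h : Deg L a b c) : L.mul a (L.mul b c) = L.mul (L.mul a b) c ∧
    f L b c + f L a (L.mul b c) = f L a b + f L (L.mul a b) c := by
  have f2 : ∀ x y, f L x (L.mul y x) = f L x y := fun x y => by rw [L.comm y, f_cancel]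
  have f3 : ∀ x y, f L (L.mul x y) x = f L x y := fun x y => by rw [f_comm, f_cancel]
  have f4 : ∀ x y, f L (L.mul x y) y = f L x y := fun x y => by rw [f_comm, f2, f_comm]
  rcases h with rfl | rfl | rfl | rfl | rfl | rfl | rfl
  · simp [L.one_mul, f_one]
  · simp [L.one_mul, mul_one', f_one, f_one']
  · simp [mul_one', f_one']
  · simp [L.cancel, self, L.one_mul, f_cancel, f_self, f_one, two]
  · simp [c4, self, mul_one', f4, f_self, f_one', two]
  · simp [c2, c3, f2, f3, f_comm L b]
  · simp [c2, self, f2, f_self, f_comm L b]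

theorem deg_of (a b c : F)
    (h : f L b c + f L a (L.mul b c) = f L a b + f L (L.mul a b) c) : Deg L a b c := by
  by_contra hn
  simp only [Deg, not_or] at hn
  obtain ⟨h1, h2, h3, h4, h5, h6, h7⟩ := hn
  have := congrFun h {a, b, L.mul a b}
  have hc : c ∉ ({a, b, L.mul a b} : Set F) := by simp [h7, Ne.symm h5, Ne.symm h6]
  have hbc : L.mul b c ∉ ({a, b, L.mul a b} : Set F) := by
    simp only [Set.mem_insert_iff, Set.mem_singleton_iff, not_or]
    refine ⟨fun e => h7 ?_, fun e => h3 ?_, fun e => h6 ?_⟩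
    · rw [← e, c3]
    · rw [← L.cancel b c, e, self]
    · rw [← L.cancel b c, e, c2]
  have hab : L.mul a b ≠ L.e := fun e => h4 (by rw [← L.cancel a b, e, mul_one'])
  simp only [Pi.add_apply] at this
  unfold f at this
  rw [if_neg (fun e => hc (by rw [e.2.2.2]; simp)), if_neg (fun e => hbc (by rw [e.2.2.2]; simp)),
    if_pos ⟨h1, h2, hab, rfl⟩, if_neg (fun e => hc (by rw [e.2.2.2]; simp))] at this
  simp at this

theorem line (x y z : F) (h : Deg L x y z) : ∃ u v, ∀ w ∈ ({x, y, z} : Set F),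
    w ∈ ({L.e, u, v, L.mul u v} : Set F) := by
  rcases h with rfl | rfl | rfl | rfl | rfl | rfl | rfl
  exacts [⟨y, z, by simp⟩, ⟨x, z, by simp⟩, ⟨x, y, by simp⟩, ⟨x, z, by simp⟩, ⟨x, y, by simp⟩,
    ⟨x, y, by simp⟩, ⟨x, y, by simp⟩]

theorem result {F : Type u} (L : SteinerLoop F) :
    ∃ (X : Type u) (M : SteinerLoop X) (φ : X → F), Propagates M ∧ Function.Surjective φ ∧
      (∀ a b, φ (M.mul a b) = L.mul (φ a) (φ b)) ∧ (Finite F → Finite X) := by
  refine ⟨_, ext L, Prod.fst, ?_, Prod.fst_surjective, fun _ _ => rfl, fun _ => inferInstance⟩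
  intro x y z h a ha b hb c hc
  have h2 := congrArg Prod.snd h
  simp only [ext] at h2
  obtain ⟨u, v, huv⟩ := line L _ _ _ (deg_of L x.1 y.1 z.1 (by linear_combination h2))
  have key : ∀ p ∈ gen (ext L) x y z, p.1 ∈ ({L.e, u, v, L.mul u v} : Set F) := by
    intro p hp
    refine hp {p | p.1 ∈ ({L.e, u, v, L.mul u v} : Set F)}
      ⟨Or.inl rfl, huv _ (by simp), huv _ (by simp), huv _ (by simp), ?_⟩
    rintro ⟨a, a'⟩ ha ⟨b, b'⟩ hb
    simp only [Set.mem_ofPred_eq, ext, Set.mem_insert_iff, Set.mem_singleton_iff] at ha hb ⊢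
    rcases ha with rfl | rfl | rfl | rfl <;> rcases hb with rfl | rfl | rfl | rfl <;>
      simp [L.one_mul, mul_one', self, c2, L.comm]
  have hd : Deg L a.1 b.1 c.1 := by
    have h1 := key a ha
    have h2 := key b hb
    have h3 := key c hc
    simp only [Set.mem_insert_iff, Set.mem_singleton_iff] at h1 h2 h3
    rcases h1 with h1 | h1 | h1 | h1 <;> rcases h2 with h2 | h2 | h2 | h2 <;>
      rcases h3 with h3 | h3 | h3 | h3 <;> rw [h1, h2, h3] <;>
      simp [Deg, L.cancel, c2, c3, c4, L.comm v u]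
  obtain ⟨e1, e2⟩ := deg_assoc L _ _ _ hd
  refine Prod.ext e1 ?_
  simp only [ext]
  linear_combination e2

end Pool.Agent.Results.MP_b3a441_al.Cover
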